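import Pool.Agent.Helper570.NCS.Main2

set_option autoImplicit false

namespace Pool.Agent.Results.MP_8d41d4_an.SmoothTwo

/-- For every `k` with `2 ≤ k ≤ ∞`, an infinite-dimensional Banach space with an equivalent
`C^k` smooth norm has a `C^k` smooth norm which is not complete. -/
theorem result {X : Type*} [NormedAddCommGroup X] [NormedSpace ℝ X] [CompleteSpace X]
    (hX : ¬ FiniteDimensional ℝ X) (k : ℕ∞) (hk : 2 ≤ k)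
    (N : Seminorm ℝ X)
    (hN1 : ∃ c : ℝ, 0 < c ∧ ∀ x : X, c * ‖x‖ ≤ N x)
    (hN2 : ∃ C : ℝ, ∀ x : X, N x ≤ C * ‖x‖)
    (hN : ContDiffOn ℝ k N {0}ᶜ) :
    ∃ p : Seminorm ℝ X, (∀ x : X, p x = 0 → x = 0) ∧ ContDiffOn ℝ k p {0}ᶜ ∧
      ¬ (∀ s : ℕ → X,
          (∀ ε : ℝ, 0 < ε → ∃ n : ℕ, ∀ i ≥ n, ∀ j ≥ n, p (s i - s j) < ε) →
          ∃ x : X, ∀ ε : ℝ, 0 < ε → ∃ n : ℕ, ∀ i ≥ n, p (s i - x) < ε) := by
  obtain ⟨c, hc, hN1⟩ := hN1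
  obtain ⟨C, hN2⟩ := hN2
  exact Pool.Helper570.NCS.main_two hX k hk N c C hc hN1 hN2 hN

end Pool.Agent.Results.MP_8d41d4_an.SmoothTwo
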